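import Pool.Agent.Run7.h757.MW.Stm

open Finset MeasureTheory Filter Pool.Agent.Run7.h757.MW

namespace Pool.Agent.Run7.h930.MW

theorem dim_inj {k P x y a b : ℕ} (hk : 2 ≤ k) (hx : P < x) (ha : a ≤ P ^ (k - 1))
    (hxy : x < y) (h : x ^ k + a = y ^ k + b) : False := by
  have h1 : (x + 1) ^ k ≤ y ^ k := Nat.pow_le_pow_left hxy k
  have h2 : x ^ k + x ^ (k - 1) ≤ (x + 1) ^ k := by
    obtain ⟨l, rfl⟩ : ∃ l, k = l + 1 := ⟨k - 1, by omega⟩
    simp only [Nat.add_sub_cancel]
    calc x ^ (l + 1) + x ^ l = x ^ l * (x + 1) := by ring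
      _ ≤ (x + 1) ^ l * (x + 1) := Nat.mul_le_mul_right _ (Nat.pow_le_pow_left (by omega) l)
      _ = (x + 1) ^ (l + 1) := by ring
  have h3 : P ^ (k - 1) < x ^ (k - 1) := Nat.pow_lt_pow_left hx (by omega)
  omega

/-- the real estimate behind the step -/
theorem dim_step_card {k : ℕ} (hk : 2 ≤ k) (ε δ : ℝ) (hδ : 0 < δ) :
    ∀ᶠ N : ℕ in atTop,
      (N : ℝ) ^ (1 + (1 - 1 / (k : ℝ)) * ε - δ) ≤
        ((N / 4 : ℕ) : ℝ) * ((⌊((N / 4 : ℕ) : ℝ) ^ (1 - 1 / (k : ℝ))⌋₊ : ℕ) : ℝ) ^ ε := by
  have hk0 : (2 : ℝ) ≤ k := by exact_mod_cast hk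
  set θ : ℝ := 1 - 1 / (k : ℝ) with hθ
  have hθ0 : 0 < θ := by
    rw [hθ, sub_pos, div_lt_one (by linarith)]; linarith
  have hθ1 : θ < 1 := by
    rw [hθ]; have : (0 : ℝ) < 1 / k := by positivity
    linarith
  have hlog : Tendsto (fun N : ℕ => Real.log (N : ℝ)) atTop atTop :=
    Real.tendsto_log_atTop.comp tendsto_natCast_atTop_atTop
  filter_upwards [eventually_ge_atTop 8, hlog.eventually_ge_atTop ((Real.log 8 + |ε| * Real.log 16) / δ)]
    with N hN hl
  have hNr : (8 : ℝ) ≤ N := by exact_mod_cast hN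
  have hNpos : (0 : ℝ) < N := by linarith
  set P : ℕ := N / 4 with hP
  have hP8 : (N : ℝ) / 8 ≤ P := by
    have : N ≤ 8 * P := by omega
    have : (N : ℝ) ≤ 8 * P := by exact_mod_cast this
    linarith
  have hP1 : (1 : ℝ) ≤ P := by linarith
  have hPpos : (0 : ℝ) < P := by linarith
  have hPN : (P : ℝ) ≤ N := by
    have : P ≤ N := by omega
    exact_mod_cast this
  set R : ℕ := ⌊(P : ℝ) ^ θ⌋₊ with hR
  have hPθ1 : (1 : ℝ) ≤ (P : ℝ) ^ θ := Real.one_le_rpow hP1 hθ0.le
  have hR1 : 1 ≤ R := by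
    rw [hR]; exact Nat.le_floor (by simpa using hPθ1)
  have hR1r : (1 : ℝ) ≤ R := by exact_mod_cast hR1
  have hRpos : (0 : ℝ) < R := by linarith
  have hRup : (R : ℝ) ≤ (P : ℝ) ^ θ := Nat.floor_le (by positivity)
  have hRlo : (P : ℝ) ^ θ / 2 ≤ R := by
    have := Nat.lt_floor_add_one ((P : ℝ) ^ θ)
    rw [← hR] at this
    linarith
  have hlogP : Real.log N - Real.log 8 ≤ Real.log P := by
    rw [← Real.log_div hNpos.ne' (by norm_num)]
    exact Real.log_le_log (by positivity) hP8
  have hlogPup : Real.log P ≤ Real.log N := Real.log_le_log hPpos hPN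
  have hlogRup : Real.log R ≤ θ * Real.log N := by
    calc Real.log R ≤ Real.log ((P : ℝ) ^ θ) := Real.log_le_log hRpos hRup
      _ = θ * Real.log P := Real.log_rpow hPpos θ
      _ ≤ θ * Real.log N := mul_le_mul_of_nonneg_left hlogPup hθ0.le
  have hlogRlo : θ * Real.log N - Real.log 16 ≤ Real.log R := by
    have h1 : Real.log ((P : ℝ) ^ θ / 2) ≤ Real.log R := Real.log_le_log (by positivity) hRlo
    rw [Real.log_div (by positivity) (by norm_num), Real.log_rpow hPpos] at h1
    have h2 : θ * (Real.log N - Real.log 8) ≤ θ * Real.log P :=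
      mul_le_mul_of_nonneg_left hlogP hθ0.le
    have h3 : θ * Real.log 8 ≤ Real.log 8 := by
      have : 0 < Real.log 8 := Real.log_pos (by norm_num)
      nlinarith
    have h4 : Real.log 16 = Real.log 8 + Real.log 2 := by
      rw [← Real.log_mul (by norm_num) (by norm_num)]; norm_num
    linarith
  have habs : ε * (θ * Real.log N) - |ε| * Real.log 16 ≤ ε * Real.log R := by
    have h16 : 0 < Real.log 16 := Real.log_pos (by norm_num)
    rcases le_or_gt 0 ε with h | h
    · rw [abs_of_nonneg h]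
      have := mul_le_mul_of_nonneg_left hlogRlo h
      linarith
    · rw [abs_of_neg h]
      have := mul_le_mul_of_nonpos_left hlogRup h.le
      nlinarith
  have hfin : Real.log 8 + |ε| * Real.log 16 ≤ δ * Real.log N := by
    rw [div_le_iff₀ hδ] at hl; linarith
  rw [Real.rpow_def_of_pos hNpos, Real.rpow_def_of_pos hRpos]
  calc Real.exp (Real.log N * (1 + θ * ε - δ))
      ≤ Real.exp (Real.log P + Real.log R * ε) := by
        apply Real.exp_le_exp.mpr
        nlinarith
    _ = P * Real.exp (Real.log R * ε) := by rw [Real.exp_add, Real.exp_log hPpos]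

theorem t_DIM : S_DIM := by
  intro k t η hk hη
  induction t generalizing η with
  | zero =>
    filter_upwards [eventually_ge_atTop 1] with N hN
    refine ⟨{0}, ?_, ?_⟩
    · intro a ha
      rw [Finset.mem_singleton] at ha
      subst ha
      exact ⟨Nat.zero_le _, Fin.elim0, fun i => i.elim0, by simp⟩
    · have hN1 : (1 : ℝ) ≤ N := by exact_mod_cast hN
      simp only [pow_zero, mul_one, sub_self, zero_sub, card_singleton, Nat.cast_one]
      exact Real.rpow_le_one_of_one_le_of_nonpos hN1 (by linarith)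
  | succ t ih =>
    have hk0 : (2 : ℝ) ≤ k := by exact_mod_cast hk
    have hkpos : (0 : ℝ) < k := by linarith
    set θ : ℝ := 1 - 1 / (k : ℝ) with hθ
    have hθ0 : 0 < θ := by
      rw [hθ, sub_pos, div_lt_one (by linarith)]; linarith
    have hθ1 : θ < 1 := by
      rw [hθ]; have : (0 : ℝ) < 1 / k := by positivity
      linarith
    have ih' := ih (η / 2) (by positivity)
    have htend : Tendsto (fun N : ℕ => ⌊((N / 4 : ℕ) : ℝ) ^ θ⌋₊) atTop atTop := by
      apply tendsto_nat_floor_atTop.comp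
      apply (tendsto_rpow_atTop hθ0).comp
      apply tendsto_natCast_atTop_atTop.comp
      exact Nat.tendsto_div_const_atTop (by norm_num)
    have hev := htend.eventually ih'
    have hcard := dim_step_card hk ((k : ℝ) - k * θ ^ t - η / 2) (η * (1 - θ / 2))
      (by apply mul_pos hη; linarith)
    filter_upwards [hev, hcard, eventually_ge_atTop 4] with N h1 h2 hN
    obtain ⟨U, hU, hUc⟩ := h1
    set P : ℕ := N / 4 with hP
    have hP1 : 1 ≤ P := by omega
    have hPpos : (0 : ℝ) < P := by exact_mod_cast hP1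
    set R : ℕ := ⌊(P : ℝ) ^ θ⌋₊ with hR
    have hRk : R ^ k ≤ P ^ (k - 1) := by
      have h3 : (R : ℝ) ≤ (P : ℝ) ^ θ := Nat.floor_le (by positivity)
      have h4 : (R : ℝ) ^ k ≤ ((P : ℝ) ^ θ) ^ k := pow_le_pow_left₀ (by positivity) h3 k
      have h5 : ((P : ℝ) ^ θ) ^ k = (P : ℝ) ^ (k - 1) := by
        rw [← Real.rpow_natCast, ← Real.rpow_mul hPpos.le, ← Real.rpow_natCast]
        congr 1
        rw [Nat.cast_sub (by omega), hθ]
        field_simp
        norm_num
      rw [h5] at h4
      exact_mod_cast h4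
    have haU : ∀ a ∈ U, a ≤ P ^ (k - 1) := fun a ha => (hU a ha).1.trans hRk
    refine ⟨(Ioc P (2 * P) ×ˢ U).image fun p => p.1 ^ k + p.2, ?_, ?_⟩
    · intro a ha
      rw [Finset.mem_image] at ha
      obtain ⟨⟨x, b⟩, hxb, rfl⟩ := ha
      rw [Finset.mem_product, Finset.mem_Ioc] at hxb
      obtain ⟨⟨hx1, hx2⟩, hb⟩ := hxb
      simp only at hx1 hx2 hb ⊢
      constructor
      · have h6 : x ^ k ≤ (2 * P) ^ k := Nat.pow_le_pow_left hx2 k
        have h7 : b ≤ P ^ k := (haU b hb).trans (Nat.pow_le_pow_right hP1 (by omega))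
        have h8 : (4 * P) ^ k ≤ N ^ k := Nat.pow_le_pow_left (by omega) k
        have h9 : (2 * P) ^ k + P ^ k ≤ (4 * P) ^ k := by
          rw [mul_pow, mul_pow, ← Nat.succ_mul]
          apply Nat.mul_le_mul_right
          have h10 : 2 ^ k < 4 ^ k := Nat.pow_lt_pow_left (by norm_num) (by omega)
          omega
        omega
      · obtain ⟨-, y, hy1, hy2⟩ := hU b hb
        refine ⟨Fin.cons x y, ?_, ?_⟩
        · intro i
          refine Fin.cases ?_ (fun j => ?_) i
          · simp only [Fin.cons_zero]; omega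
          · simpa using hy1 j
        · rw [Fin.sum_univ_succ]
          simp [hy2]
    · rw [Finset.card_image_of_injOn]
      · rw [Finset.card_product, Nat.card_Ioc]
        have h11 : 2 * P - P = P := by omega
        rw [h11, Nat.cast_mul]
        have h12 : (k : ℝ) - k * θ ^ (t + 1) - η =
            1 + θ * ((k : ℝ) - k * θ ^ t - η / 2) - η * (1 - θ / 2) := by
          have h13 : (k : ℝ) * (1 - θ) = 1 := by rw [hθ]; field_simp; ring
          rw [pow_succ]
          linear_combination h13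
        rw [h12]
        exact h2.trans (mul_le_mul_of_nonneg_left hUc hPpos.le)
      · rintro ⟨x, a⟩ hxa ⟨y, b⟩ hyb h
        simp only [Finset.coe_product, Set.mem_prod, Finset.mem_coe, Finset.mem_Ioc] at hxa hyb
        simp only at h
        rcases lt_trichotomy x y with hlt | heq | hgt
        · exact (dim_inj hk hxa.1.1 (haU a hxa.2) hlt h).elim
        · subst heq
          have : a = b := by omega
          rw [this]
        · exact (dim_inj hk hyb.1.1 (haU b hyb.2) hgt h.symm).elim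

end Pool.Agent.Run7.h930.MW
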