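import Pool.Agent.Run7.h757.MW.MT
import Pool.Agent.Run7.h304.MW.PAR

open Finset MeasureTheory Filter Pool.Agent.Run7.h757.MW Pool.Agent.Run7.h304.MW

namespace Pool.Agent.Run7.h930.MW

noncomputable section

/-- orthogonality of the additive characters -/
theorem orth {Q : ℕ} (hQ : 1 ≤ Q) {z : ℂ} (hz : IsPrimitiveRoot z Q) (a b : ℕ) :
    ∑ r ∈ range Q, z ^ (a * r) * (z⁻¹) ^ (b * r) = if a ≡ b [MOD Q] then (Q : ℂ) else 0 := by
  have hQ0 : Q ≠ 0 := by omega
  have hz0 : z ≠ 0 := hz.ne_zero hQ0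
  have h0 : ∀ r ∈ range Q, z ^ (a * r) * (z⁻¹) ^ (b * r) = (z ^ a * (z⁻¹) ^ b) ^ r := by
    intro r _
    rw [mul_pow, ← pow_mul, ← pow_mul]
  rw [sum_congr rfl h0]
  have hiff : z ^ a * (z⁻¹) ^ b = 1 ↔ a ≡ b [MOD Q] := by
    rw [inv_pow, mul_inv_eq_one₀ (pow_ne_zero _ hz0)]
    have hred : ∀ n : ℕ, z ^ n = z ^ (n % Q) := by
      intro n
      conv_lhs => rw [← Nat.div_add_mod n Q, pow_add, pow_mul, hz.pow_eq_one, one_pow, one_mul]
    constructor
    · intro h
      rw [hred a, hred b] at h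
      exact hz.pow_inj (Nat.mod_lt _ hQ) (Nat.mod_lt _ hQ) h
    · intro h
      have h' : a % Q = b % Q := h
      rw [hred a, hred b, h']
  split_ifs with h
  · rw [← hiff] at h
    simp only [h, one_pow, sum_const, card_range, nsmul_eq_mul, mul_one]
  · rw [← hiff] at h
    have h2 : (z ^ a * (z⁻¹) ^ b) ^ Q = 1 := by
      rw [mul_pow, ← pow_mul, ← pow_mul, mul_comm a, mul_comm b, pow_mul, pow_mul, hz.pow_eq_one,
        one_pow, inv_pow, hz.pow_eq_one, inv_one, one_pow, one_mul]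
    rw [geom_sum_eq h, h2, sub_self, zero_div]

/-- the Fejer factor -/
def Fe (H : ℕ) (β : ℝ) : ℝ := ‖∑ j ∈ range H, e (j * β)‖ ^ 2 / (H : ℝ) ^ 2

theorem norm_sum_e_le (H : ℕ) (β : ℝ) : ‖∑ j ∈ range H, e (j * β)‖ ≤ H := by
  refine (norm_sum_le _ _).trans ?_
  simp [norm_e]

theorem Fe_nonneg (H : ℕ) (β : ℝ) : 0 ≤ Fe H β := by unfold Fe; positivity

theorem Fe_le_one (H : ℕ) (β : ℝ) : Fe H β ≤ 1 := by
  unfold Fe
  refine div_le_one_of_le₀ ?_ (by positivity)
  exact pow_le_pow_left₀ (norm_nonneg _) (norm_sum_e_le H β) 2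

theorem norm_one_sub_e_le (x : ℝ) : ‖e x - 1‖ ≤ 2 * Real.pi * |x| := by
  have h := Real.norm_exp_I_mul_ofReal_sub_one_le (x := 2 * Real.pi * x)
  have h1 : e x = Complex.exp (Complex.I * ((2 * Real.pi * x : ℝ) : ℂ)) := by
    unfold e; congr 1; push_cast; ring
  rw [h1]
  refine h.trans ?_
  rw [Real.norm_eq_abs, abs_mul, abs_of_pos (by positivity : (0 : ℝ) < 2 * Real.pi)]

theorem one_sub_Fe_le (H : ℕ) (hH : 1 ≤ H) (β : ℝ) :
    1 - Fe H β ≤ 4 * Real.pi * (H * |β|) := by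
  have hHr : (1 : ℝ) ≤ H := by exact_mod_cast hH
  have hHpos : (0 : ℝ) < H := by linarith
  set s : ℝ := ‖∑ j ∈ range H, e (j * β)‖ with hs
  have hs0 : 0 ≤ s := norm_nonneg _
  have hs1 : s ≤ H := norm_sum_e_le H β
  have hs2 : (H : ℝ) - s ≤ H * (2 * Real.pi * (H * |β|)) := by
    have h1 : (H : ℝ) = ‖∑ j ∈ range H, (1 : ℂ)‖ := by simp
    have h2 : ‖∑ j ∈ range H, (1 : ℂ)‖ - s ≤ ‖∑ j ∈ range H, (1 : ℂ) - ∑ j ∈ range H, e (j * β)‖ :=
      norm_sub_norm_le _ _
    rw [← h1, ← sum_sub_distrib] at h2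
    refine h2.trans ((norm_sum_le _ _).trans ?_)
    have h3 : ∀ j ∈ range H, ‖(1 : ℂ) - e (j * β)‖ ≤ 2 * Real.pi * (H * |β|) := by
      intro j hj
      rw [norm_sub_rev]
      refine (norm_one_sub_e_le _).trans ?_
      apply mul_le_mul_of_nonneg_left _ (by positivity)
      rw [abs_mul, Nat.abs_cast]
      apply mul_le_mul_of_nonneg_right _ (abs_nonneg _)
      exact_mod_cast (mem_range.1 hj).le
    refine (sum_le_sum h3).trans ?_
    simp
  have hF : Fe H β = s ^ 2 / (H : ℝ) ^ 2 := rfl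
  have h4 : 1 - Fe H β = ((H : ℝ) - s) * (H + s) / (H : ℝ) ^ 2 := by
    rw [hF]; field_simp; ring
  rw [h4, div_le_iff₀ (by positivity)]
  calc ((H : ℝ) - s) * (H + s) ≤ (H * (2 * Real.pi * (H * |β|))) * (H + H) := by
        apply mul_le_mul hs2 (by linarith) (by linarith)
        positivity
    _ = 4 * Real.pi * (H * |β|) * (H : ℝ) ^ 2 := by ring

theorem one_sub_Fe_le' (H : ℕ) (hH : 1 ≤ H) (β : ℝ) :
    1 - Fe H β ≤ 5 * (H * |β|) ^ (1 / 2 : ℝ) := by
  have h0 : 0 ≤ (H : ℝ) * |β| := by positivity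
  set x : ℝ := H * |β| with hx
  have h1 := one_sub_Fe_le H hH β
  rw [← hx] at h1
  have h2 : 1 - Fe H β ≤ 1 := by linarith [Fe_nonneg H β]
  rw [← Real.sqrt_eq_rpow]
  have hsq : Real.sqrt x * Real.sqrt x = x := Real.mul_self_sqrt h0
  have hs0 := Real.sqrt_nonneg x
  rcases le_or_gt (1 / 5) (Real.sqrt x) with h | h
  · linarith
  · have hpi : Real.pi < 3.15 := Real.pi_lt_d2
    have h3 : x ≤ Real.sqrt x * (1 / 5) := by
      nlinarith [mul_nonneg hs0 (sub_nonneg.2 h.le)]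
    have h4 : 4 * Real.pi * x ≤ 4 * 3.15 * x :=
      mul_le_mul_of_nonneg_right (by linarith) h0
    linarith

theorem Fe_eq (H : ℕ) (Q r : ℕ) (hQ : 1 ≤ Q) :
    ((Fe H (rep Q r) : ℝ) : ℂ) = 1 / (H : ℂ) ^ 2 * ∑ i ∈ range H, ∑ j ∈ range H,
      (Complex.exp (2 * Real.pi * Complex.I / Q)) ^ (j * r) *
        ((Complex.exp (2 * Real.pi * Complex.I / Q))⁻¹) ^ (i * r) := by
  have hQ0 : Q ≠ 0 := by omega
  set z := Complex.exp (2 * Real.pi * Complex.I / Q) with hzdef
  have hz : IsPrimitiveRoot z Q := Complex.isPrimitiveRoot_exp Q hQ0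
  have hn : ‖z‖ = 1 := hz.norm'_eq_one hQ0
  have hconj : (starRingEnd ℂ) z = z⁻¹ := by
    rw [Complex.inv_def, Complex.normSq_eq_norm_sq, hn]; simp
  unfold Fe
  push_cast
  rw [← Complex.mul_conj', map_sum, sum_mul_sum, sum_comm]
  rw [div_eq_inv_mul, one_div]
  congr 1
  refine sum_congr rfl fun i _ => sum_congr rfl fun j _ => ?_
  rw [e_rep Q j r hQ, e_rep Q i r hQ, ← hzdef, map_pow, hconj]

theorem main_id (Q H M : ℕ) (c : ℕ → ℝ) (hH : 1 ≤ H) (hHM : H ≤ M) (hMQ : M + H ≤ Q) (i j : ℕ)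
    (hi : i < H) (hj : j < H) :
    ∑ r ∈ range Q, ((Complex.exp (2 * Real.pi * Complex.I / Q)) ^ (j * r) *
        ((Complex.exp (2 * Real.pi * Complex.I / Q))⁻¹) ^ (i * r)) *
          (dft Q c r * e (-(M * rep Q r))) = Q * (c (M + i - j) : ℂ) := by
  have hQ : 1 ≤ Q := by omega
  have hQ0 : Q ≠ 0 := by omega
  set z := Complex.exp (2 * Real.pi * Complex.I / Q) with hzdef
  have hz : IsPrimitiveRoot z Q := Complex.isPrimitiveRoot_exp Q hQ0
  have h1 : ∀ r ∈ range Q, (z ^ (j * r) * (z⁻¹) ^ (i * r)) * (dft Q c r * e (-(M * rep Q r))) =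
      ∑ m ∈ range Q, (c m : ℂ) * (z ^ ((m + j) * r) * (z⁻¹) ^ ((M + i) * r)) := by
    intro r _
    unfold dft
    rw [e_neg, e_rep Q M r hQ, ← hzdef, sum_mul, mul_sum]
    refine sum_congr rfl fun m _ => ?_
    rw [e_rep Q m r hQ, ← hzdef, add_mul, add_mul, pow_add, pow_add]
    simp only [inv_pow]
    ring
  rw [sum_congr rfl h1, sum_comm]
  have h2 : ∀ m ∈ range Q, ∑ r ∈ range Q, (c m : ℂ) * (z ^ ((m + j) * r) * (z⁻¹) ^ ((M + i) * r)) =
      if m = M + i - j then (c m : ℂ) * Q else 0 := by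
    intro m hm
    rw [mem_range] at hm
    rw [← mul_sum, orth hQ hz (m + j) (M + i)]
    have hiff : m + j ≡ M + i [MOD Q] ↔ m = M + i - j := by
      constructor
      · intro h
        have h3 : m + j ≡ (M + i - j) + j [MOD Q] := by
          rwa [Nat.sub_add_cancel (by omega : j ≤ M + i)]
        have h4 : m ≡ M + i - j [MOD Q] := Nat.ModEq.add_right_cancel' j h3
        exact Nat.ModEq.eq_of_lt_of_lt h4 hm (by omega)
      · intro h
        have : m + j = M + i := by omega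
        rw [this]
    by_cases h : m = M + i - j
    · rw [if_pos (hiff.2 h), if_pos h]
    · rw [if_neg (fun h' => h (hiff.1 h')), if_neg h, mul_zero]
  rw [sum_congr rfl h2, sum_ite_eq', if_pos (mem_range.2 (by omega)), mul_comm]

theorem avg_ge (H M : ℕ) (c : ℕ → ℝ) (hH : 1 ≤ H) (hHM : H ≤ M) (hc : ∀ m, 0 ≤ c m) :
    1 / (2 * (H : ℝ)) * ∑ m ∈ Icc (M - H / 2) (M + H / 2), c m ≤
      1 / (H : ℝ) ^ 2 * ∑ i ∈ range H, ∑ j ∈ range H, c (M + i - j) := by
  have hHr : (1 : ℝ) ≤ H := by exact_mod_cast hH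
  have hHpos : (0 : ℝ) < H := by linarith
  have h1 : ∑ m ∈ Icc (M - H / 2) (M + H / 2), (H : ℝ) / 2 * c m ≤
      ∑ i ∈ range H, ∑ j ∈ range H, c (M + i - j) := by
    rw [← sum_product (range H) (range H) fun p => c (M + p.1 - p.2)]
    have h2 := Finset.sum_fiberwise_le_sum_of_sum_fiber_nonneg
      (s := range H ×ˢ range H) (t := Icc (M - H / 2) (M + H / 2))
      (g := fun p : ℕ × ℕ => M + p.1 - p.2) (f := fun p => c (M + p.1 - p.2))
      (fun y _ => sum_nonneg fun x _ => hc _)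
    refine le_trans (sum_le_sum fun m hm => ?_) h2
    have h3 : ∑ x ∈ range H ×ˢ range H with M + x.1 - x.2 = m, c (M + x.1 - x.2) =
        ((range H ×ˢ range H).filter fun x => M + x.1 - x.2 = m).card * c m := by
      rw [sum_congr rfl (g := fun _ => c m)]
      · simp
      · intro x hx
        rw [(mem_filter.1 hx).2]
    rw [h3]
    apply mul_le_mul_of_nonneg_right _ (hc m)
    rw [mem_Icc] at hm
    have h4 : H - H / 2 ≤ ((range H ×ˢ range H).filter fun x => M + x.1 - x.2 = m).card := by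
      rcases le_total M m with hle | hle
      · obtain ⟨d, rfl⟩ := Nat.exists_eq_add_of_le hle
        have h5 : (range (H - H / 2)).card ≤
            ((range H ×ˢ range H).filter fun x => M + x.1 - x.2 = M + d).card := by
          apply Finset.card_le_card_of_injOn (fun j => (j + d, j))
          · intro j hj
            rw [Finset.mem_coe, mem_range] at hj
            simp only [Finset.coe_filter, Set.mem_ofPred_eq, mem_product, mem_range]
            omega
          · intro a _ b _ hab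
            simpa using congrArg Prod.snd hab
        simpa using h5
      · obtain ⟨d, hd⟩ := Nat.exists_eq_add_of_le hle
        have h5 : (range (H - H / 2)).card ≤
            ((range H ×ˢ range H).filter fun x => M + x.1 - x.2 = m).card := by
          apply Finset.card_le_card_of_injOn (fun j => (j, j + d))
          · intro j hj
            rw [Finset.mem_coe, mem_range] at hj
            simp only [Finset.coe_filter, Set.mem_ofPred_eq, mem_product, mem_range]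
            omega
          · intro a _ b _ hab
            simpa using congrArg Prod.fst hab
        simpa using h5
    have h6 : H ≤ 2 * (H - H / 2) := by omega
    have h7 : (H : ℝ) ≤ 2 * ((H - H / 2 : ℕ) : ℝ) := by exact_mod_cast h6
    have h8 : ((H - H / 2 : ℕ) : ℝ) ≤
      (((range H ×ˢ range H).filter fun x => M + x.1 - x.2 = m).card : ℝ) := by exact_mod_cast h4
    linarith
  rw [← mul_sum] at h1
  calc 1 / (2 * (H : ℝ)) * ∑ m ∈ Icc (M - H / 2) (M + H / 2), c m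
      = 1 / (H : ℝ) ^ 2 * ((H : ℝ) / 2 * ∑ m ∈ Icc (M - H / 2) (M + H / 2), c m) := by
        field_simp
    _ ≤ _ := mul_le_mul_of_nonneg_left h1 (by positivity)

theorem t_FEJ : S_FEJ := by
  refine ⟨fun Q H r => 1 - Fe H (rep Q r), fun Q H r => ⟨?_, ?_⟩, ?_, ?_⟩
  · linarith [Fe_le_one H (rep Q r)]
  · linarith [Fe_nonneg H (rep Q r)]
  · intro Q H r _ hH _
    exact one_sub_Fe_le' H hH _
  · intro Q H M c hH hHM hMQ hc
    have hQ : 1 ≤ Q := by omega
    have hQ0 : (Q : ℂ) ≠ 0 := by exact_mod_cast (by omega : Q ≠ 0)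
    have hH0 : (H : ℂ) ≠ 0 := by exact_mod_cast (by omega : H ≠ 0)
    set g : ℕ → ℂ := fun r => dft Q c r * e (-(M * rep Q r)) with hg
    -- the full sum
    have hA : ∑ r ∈ range Q, ((Fe H (rep Q r) : ℝ) : ℂ) * g r =
        (Q : ℂ) * (1 / (H : ℂ) ^ 2 * ∑ i ∈ range H, ∑ j ∈ range H, (c (M + i - j) : ℂ)) := by
      have h1 : ∀ r ∈ range Q, ((Fe H (rep Q r) : ℝ) : ℂ) * g r = 1 / (H : ℂ) ^ 2 *
          ∑ i ∈ range H, ∑ j ∈ range H,
          ((Complex.exp (2 * Real.pi * Complex.I / Q)) ^ (j * r) *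
            ((Complex.exp (2 * Real.pi * Complex.I / Q))⁻¹) ^ (i * r)) * g r := by
        intro r _
        rw [Fe_eq H Q r hQ, mul_assoc, sum_mul]
        congr 1
        refine sum_congr rfl fun i _ => ?_
        rw [sum_mul]
      rw [sum_congr rfl h1, ← mul_sum, sum_comm]
      have h2 : ∀ i ∈ range H, ∑ r ∈ range Q, ∑ j ∈ range H,
          ((Complex.exp (2 * Real.pi * Complex.I / Q)) ^ (j * r) *
            ((Complex.exp (2 * Real.pi * Complex.I / Q))⁻¹) ^ (i * r)) * g r =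
          ∑ j ∈ range H, (Q : ℂ) * (c (M + i - j) : ℂ) := by
        intro i hi
        rw [sum_comm]
        refine sum_congr rfl fun j hj => ?_
        exact main_id Q H M c hH hHM hMQ i j (mem_range.1 hi) (mem_range.1 hj)
      rw [sum_congr rfl h2]
      simp_rw [← mul_sum]
      ring
    have hB : ∑ r ∈ range Q, g r = (Q : ℂ) * (c M : ℂ) := by
      have h1 := main_id Q H M c hH hHM hMQ 0 0 (by omega) (by omega)
      simpa [hg] using h1
    have hC : ∑ r ∈ range Q, ((1 - Fe H (rep Q r) : ℝ) : ℂ) * g r =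
        ∑ r ∈ Ico 1 Q, ((1 - Fe H (rep Q r) : ℝ) : ℂ) * g r := by
      rw [range_eq_Ico, sum_eq_sum_Ico_succ_bot (by omega : 0 < Q)]
      have h0 : Fe H (rep Q 0) = 1 := by
        have hr : rep Q 0 = 0 := by simp [rep]
        have hHr : (H : ℝ) ≠ 0 := by exact_mod_cast (by omega : H ≠ 0)
        rw [hr]
        unfold Fe
        have : ∀ j ∈ range H, e ((j : ℝ) * 0) = 1 := by
          intro j _; simp [e]
        rw [sum_congr rfl this]
        simp [hHr]
      rw [h0]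
      simp
    have hD : (c M : ℂ) - 1 / (H : ℂ) ^ 2 * ∑ i ∈ range H, ∑ j ∈ range H, (c (M + i - j) : ℂ) =
        1 / (Q : ℂ) * ∑ r ∈ Ico 1 Q, ((1 - Fe H (rep Q r) : ℝ) : ℂ) * dft Q c r *
          e (-(M * rep Q r)) := by
      have h1 : ∑ r ∈ Ico 1 Q, ((1 - Fe H (rep Q r) : ℝ) : ℂ) * dft Q c r * e (-(M * rep Q r)) =
          ∑ r ∈ Ico 1 Q, ((1 - Fe H (rep Q r) : ℝ) : ℂ) * g r := by
        refine sum_congr rfl fun r _ => ?_
        rw [hg, mul_assoc]
      rw [h1, ← hC]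
      have h2 : ∑ r ∈ range Q, ((1 - Fe H (rep Q r) : ℝ) : ℂ) * g r =
          ∑ r ∈ range Q, g r - ∑ r ∈ range Q, ((Fe H (rep Q r) : ℝ) : ℂ) * g r := by
        rw [← sum_sub_distrib]
        refine sum_congr rfl fun r _ => ?_
        push_cast; ring
      rw [h2, hA, hB]
      field_simp
    have hE := avg_ge H M c hH hHM hc
    have hF : c M - 1 / (H : ℝ) ^ 2 * ∑ i ∈ range H, ∑ j ∈ range H, c (M + i - j) =
        (1 / (Q : ℂ) * ∑ r ∈ Ico 1 Q, ((1 - Fe H (rep Q r) : ℝ) : ℂ) * dft Q c r *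
          e (-(M * rep Q r))).re := by
      rw [← hD]
      have h3 : (c M : ℂ) - 1 / (H : ℂ) ^ 2 * ∑ i ∈ range H, ∑ j ∈ range H, (c (M + i - j) : ℂ) =
          ((c M - 1 / (H : ℝ) ^ 2 * ∑ i ∈ range H, ∑ j ∈ range H, c (M + i - j) : ℝ) : ℂ) := by
        push_cast; rfl
      rw [h3, Complex.ofReal_re]
    have hG := Complex.abs_re_le_norm (1 / (Q : ℂ) * ∑ r ∈ Ico 1 Q,
      ((1 - Fe H (rep Q r) : ℝ) : ℂ) * dft Q c r * e (-(M * rep Q r)))
    have hI := neg_abs_le (1 / (Q : ℂ) * ∑ r ∈ Ico 1 Q,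
      ((1 - Fe H (rep Q r) : ℝ) : ℂ) * dft Q c r * e (-(M * rep Q r))).re
    linarith

end

end Pool.Agent.Run7.h930.MW
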