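import Pool.Agent.Run7.h757.MW.Stm

/-! Piece MS of project MW (helper757), by helper930. -/

set_option autoImplicit false

open Finset MeasureTheory Filter

namespace Pool.Agent.Run7.h930.MW

open Pool.Agent.Run7.h757.MW

theorem e_eq (x : ℝ) : e x = ((Real.cos (2 * Real.pi * x) : ℝ) : ℂ) +
    ((Real.sin (2 * Real.pi * x) : ℝ) : ℂ) * Complex.I := by
  unfold e
  rw [show (2 * (Real.pi : ℂ) * (x : ℂ) * Complex.I) =
    (((2 * Real.pi * x : ℝ) : ℂ)) * Complex.I by push_cast; ring]
  rw [Complex.exp_mul_I]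
  push_cast
  rfl

theorem e_re (x : ℝ) : (e x).re = Real.cos (2 * Real.pi * x) := by
  rw [e_eq]
  rw [Complex.add_re, Complex.ofReal_re, Complex.re_ofReal_mul, Complex.I_re]
  ring

theorem e_im (x : ℝ) : (e x).im = Real.sin (2 * Real.pi * x) := by
  rw [e_eq]
  rw [Complex.add_im, Complex.ofReal_im, Complex.im_ofReal_mul, Complex.I_im]
  ring

theorem normSq_sum (B : Finset ℕ) (θ : ℕ → ℝ) :
    ‖∑ n ∈ B, e (θ n)‖ ^ 2 = ∑ n ∈ B, ∑ m ∈ B, Real.cos (2 * Real.pi * (θ n - θ m)) := by
  rw [← Complex.normSq_eq_norm_sq, Complex.normSq_apply, Complex.re_sum, Complex.im_sum]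
  simp only [e_re, e_im]
  rw [Finset.sum_mul_sum, Finset.sum_mul_sum, ← Finset.sum_add_distrib]
  refine Finset.sum_congr rfl fun n _ => ?_
  rw [← Finset.sum_add_distrib]
  refine Finset.sum_congr rfl fun m _ => ?_
  rw [mul_sub, Real.cos_sub]

theorem abs_int_cos (c A : ℝ) (hc : c ≠ 0) :
    ∫ x in (0 : ℝ)..A, Real.cos (c * x) ≤ 1 / |c| := by
  rw [intervalIntegral.integral_comp_mul_left (fun x => Real.cos x) hc, integral_cos]
  rw [mul_zero, Real.sin_zero, sub_zero, smul_eq_mul]
  refine (le_abs_self _).trans ?_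
  rw [abs_mul, abs_inv, one_div]
  have h := Real.abs_sin_le_one (c * A)
  have h2 : 0 ≤ |c|⁻¹ := by positivity
  nlinarith

theorem sum_inv_lt (B : Finset ℕ) (N D n : ℕ) (hB : B ⊆ Ioc N (N + D)) (hn : n ∈ B) :
    ∑ m ∈ B.filter (fun m => m < n), 1 / ((n : ℝ) - m) ≤ 1 + Real.log D := by
  have h1 := harmonic_le_one_add_log D
  refine le_trans ?_ h1
  rw [harmonic]
  push_cast
  have hinj : Set.InjOn (fun m => n - m - 1) (B.filter (fun m => m < n) : Finset ℕ) := by
    intro a ha b hb hab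
    have ha' := (Finset.mem_filter.1 (Finset.mem_coe.1 ha)).2
    have hb' := (Finset.mem_filter.1 (Finset.mem_coe.1 hb)).2
    simp only at hab
    omega
  have h2 : ∑ m ∈ B.filter (fun m => m < n), 1 / ((n : ℝ) - m) =
      ∑ i ∈ (B.filter (fun m => m < n)).image (fun m => n - m - 1), (((i : ℝ) + 1))⁻¹ := by
    rw [Finset.sum_image (fun a ha b hb hab => hinj ha hb hab)]
    refine Finset.sum_congr rfl fun m hm => ?_
    have hm' := (Finset.mem_filter.1 hm).2
    rw [one_div]
    congr 1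
    have : n - m - 1 + 1 = n - m := by omega
    have h3 : ((n - m - 1 : ℕ) : ℝ) + 1 = ((n - m : ℕ) : ℝ) := by
      rw [← this]; push_cast; ring
    rw [h3, Nat.cast_sub hm'.le]
  rw [h2]
  refine Finset.sum_le_sum_of_subset_of_nonneg ?_ fun i _ _ => by positivity
  intro i hi
  obtain ⟨m, hm, rfl⟩ := Finset.mem_image.1 hi
  have hm' := Finset.mem_filter.1 hm
  have h4 := Finset.mem_Ioc.1 (hB hm'.1)
  have h5 := Finset.mem_Ioc.1 (hB hn)
  rw [Finset.mem_range]
  omega

theorem sum_inv_gt (B : Finset ℕ) (N D n : ℕ) (hB : B ⊆ Ioc N (N + D)) (hn : n ∈ B) :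
    ∑ m ∈ B.filter (fun m => n < m), 1 / ((m : ℝ) - n) ≤ 1 + Real.log D := by
  have h1 := harmonic_le_one_add_log D
  refine le_trans ?_ h1
  rw [harmonic]
  push_cast
  have hinj : Set.InjOn (fun m => m - n - 1) (B.filter (fun m => n < m) : Finset ℕ) := by
    intro a ha b hb hab
    have ha' := (Finset.mem_filter.1 (Finset.mem_coe.1 ha)).2
    have hb' := (Finset.mem_filter.1 (Finset.mem_coe.1 hb)).2
    simp only at hab
    omega
  have h2 : ∑ m ∈ B.filter (fun m => n < m), 1 / ((m : ℝ) - n) =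
      ∑ i ∈ (B.filter (fun m => n < m)).image (fun m => m - n - 1), (((i : ℝ) + 1))⁻¹ := by
    rw [Finset.sum_image (fun a ha b hb hab => hinj ha hb hab)]
    refine Finset.sum_congr rfl fun m hm => ?_
    have hm' := (Finset.mem_filter.1 hm).2
    rw [one_div]
    congr 1
    have : m - n - 1 + 1 = m - n := by omega
    have h3 : ((m - n - 1 : ℕ) : ℝ) + 1 = ((m - n : ℕ) : ℝ) := by
      rw [← this]; push_cast; ring
    rw [h3, Nat.cast_sub hm'.le]
  rw [h2]
  refine Finset.sum_le_sum_of_subset_of_nonneg ?_ fun i _ _ => by positivity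
  intro i hi
  obtain ⟨m, hm, rfl⟩ := Finset.mem_image.1 hi
  have hm' := Finset.mem_filter.1 hm
  have h4 := Finset.mem_Ioc.1 (hB hm'.1)
  have h5 := Finset.mem_Ioc.1 (hB hn)
  rw [Finset.mem_range]
  omega

/-- piece MS -/
theorem t_MS : S_MS := by
  refine ⟨1, one_pos, ?_⟩
  intro f B P D N A b hD hP hA hB hSp hb
  have hpi := Real.pi_pos
  have hbP : 0 < |b| * P := mul_pos (abs_pos.2 hb) hP
  have hlog : 0 ≤ Real.log D := Real.log_nonneg (by exact_mod_cast hD)
  have hcard : (B.card : ℝ) ≤ D := by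
    have := Finset.card_le_card hB
    rw [Nat.card_Ioc] at this
    have h2 : B.card ≤ D := by omega
    exact_mod_cast h2
  have h1 : ∀ lam : ℝ, ‖S f B (b * lam)‖ ^ 2 =
      ∑ n ∈ B, ∑ m ∈ B, Real.cos (2 * Real.pi * b * ((f n : ℝ) - f m) * lam) := by
    intro lam
    unfold S
    rw [normSq_sum B (fun n => b * lam * f n)]
    refine Finset.sum_congr rfl fun n _ => Finset.sum_congr rfl fun m _ => ?_
    congr 1
    ring
  have h2 : ∫ lam in (0 : ℝ)..A, ‖S f B (b * lam)‖ ^ 2 =
      ∑ n ∈ B, ∑ m ∈ B, ∫ lam in (0 : ℝ)..A,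
        Real.cos (2 * Real.pi * b * ((f n : ℝ) - f m) * lam) := by
    rw [intervalIntegral.integral_congr (g := fun lam => ∑ n ∈ B, ∑ m ∈ B,
      Real.cos (2 * Real.pi * b * ((f n : ℝ) - f m) * lam)) (fun lam _ => h1 lam)]
    rw [intervalIntegral.integral_finset_sum]
    · refine Finset.sum_congr rfl fun n _ => ?_
      rw [intervalIntegral.integral_finset_sum]
      intro m _
      exact Continuous.intervalIntegrable (by fun_prop) _ _
    · intro n _
      exact Continuous.intervalIntegrable (by fun_prop) _ _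
  rw [h2]
  have h3 : ∀ n ∈ B, ∑ m ∈ B, ∫ lam in (0 : ℝ)..A,
      Real.cos (2 * Real.pi * b * ((f n : ℝ) - f m) * lam) ≤
        A + 1 * (1 + Real.log D) / (|b| * P) := by
    intro n hn
    have hsplit : ∑ m ∈ B, ∫ lam in (0 : ℝ)..A,
        Real.cos (2 * Real.pi * b * ((f n : ℝ) - f m) * lam) =
        (∑ m ∈ B.filter (fun m => m < n), ∫ lam in (0 : ℝ)..A,
          Real.cos (2 * Real.pi * b * ((f n : ℝ) - f m) * lam)) +
        ((∑ m ∈ B.filter (fun m => n < m), ∫ lam in (0 : ℝ)..A,
          Real.cos (2 * Real.pi * b * ((f n : ℝ) - f m) * lam)) +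
        ∫ lam in (0 : ℝ)..A, Real.cos (2 * Real.pi * b * ((f n : ℝ) - f n) * lam)) := by
      rw [← Finset.sum_filter_add_sum_filter_not B (fun m => m < n)]
      congr 1
      rw [← Finset.sum_filter_add_sum_filter_not (B.filter (fun m => ¬ m < n)) (fun m => n < m)]
      congr 1
      · refine Finset.sum_congr ?_ fun _ _ => rfl
        ext m
        simp only [Finset.mem_filter]
        constructor
        · rintro ⟨⟨h, -⟩, h'⟩; exact ⟨h, h'⟩
        · rintro ⟨h, h'⟩; exact ⟨⟨h, by omega⟩, h'⟩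
      · have : (B.filter (fun m => ¬ m < n)).filter (fun m => ¬ n < m) = {n} := by
          ext m
          simp only [Finset.mem_filter, Finset.mem_singleton]
          constructor
          · rintro ⟨⟨_, h⟩, h'⟩; omega
          · rintro rfl; exact ⟨⟨hn, lt_irrefl _⟩, lt_irrefl _⟩
        rw [this, Finset.sum_singleton]
    rw [hsplit]
    have hdiag : ∫ lam in (0 : ℝ)..A, Real.cos (2 * Real.pi * b * ((f n : ℝ) - f n) * lam) = A := by
      simp
    rw [hdiag]
    have hlt : (∑ m ∈ B.filter (fun m => m < n), ∫ lam in (0 : ℝ)..A,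
        Real.cos (2 * Real.pi * b * ((f n : ℝ) - f m) * lam)) ≤
        1 / (2 * (|b| * P)) * (1 + Real.log D) := by
      refine le_trans (Finset.sum_le_sum (g := fun m : ℕ => 1 / (2 * (|b| * P)) * (1 / ((n : ℝ) - m)))
        ?_) ?_
      · intro m hm
        obtain ⟨hmB, hmn⟩ := Finset.mem_filter.1 hm
        have hs := hSp n hn m hmB hmn
        have hnm : (0 : ℝ) < (n : ℝ) - m := by
          have : (m : ℝ) < n := by exact_mod_cast hmn
          linarith
        have hf : 0 < (f n : ℝ) - f m := lt_of_lt_of_le (mul_pos hP hnm) hs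
        have hc : 2 * Real.pi * b * ((f n : ℝ) - f m) ≠ 0 := by
          refine mul_ne_zero (mul_ne_zero (by positivity) hb) hf.ne'
        refine (abs_int_cos _ A hc).trans ?_
        rw [abs_mul, abs_mul, abs_of_pos (by positivity : (0 : ℝ) < 2 * Real.pi), abs_of_pos hf]
        rw [one_div_mul_one_div]
        refine one_div_le_one_div_of_le (by positivity) ?_
        have hpi3 : (1 : ℝ) ≤ Real.pi := by linarith [Real.pi_gt_three]
        calc 2 * (|b| * P) * ((n : ℝ) - m) = 2 * 1 * |b| * (P * ((n : ℝ) - m)) := by ring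
          _ ≤ 2 * Real.pi * |b| * ((f n : ℝ) - f m) := by
            have h0 : 0 ≤ |b| := abs_nonneg b
            gcongr
      · rw [← Finset.mul_sum]
        have := sum_inv_lt B N D n hB hn
        gcongr
    have hgt : (∑ m ∈ B.filter (fun m => n < m), ∫ lam in (0 : ℝ)..A,
        Real.cos (2 * Real.pi * b * ((f n : ℝ) - f m) * lam)) ≤
        1 / (2 * (|b| * P)) * (1 + Real.log D) := by
      refine le_trans (Finset.sum_le_sum (g := fun m : ℕ => 1 / (2 * (|b| * P)) * (1 / ((m : ℝ) - n)))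
        ?_) ?_
      · intro m hm
        obtain ⟨hmB, hmn⟩ := Finset.mem_filter.1 hm
        have hs := hSp m hmB n hn hmn
        have hnm : (0 : ℝ) < (m : ℝ) - n := by
          have : (n : ℝ) < m := by exact_mod_cast hmn
          linarith
        have hf : 0 < (f m : ℝ) - f n := lt_of_lt_of_le (mul_pos hP hnm) hs
        have hf' : (f n : ℝ) - f m ≠ 0 := by
          intro h; linarith
        have hc : 2 * Real.pi * b * ((f n : ℝ) - f m) ≠ 0 := by
          refine mul_ne_zero (mul_ne_zero (by positivity) hb) hf'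
        refine (abs_int_cos _ A hc).trans ?_
        rw [abs_mul, abs_mul, abs_of_pos (by positivity : (0 : ℝ) < 2 * Real.pi),
          abs_sub_comm, abs_of_pos hf]
        rw [one_div_mul_one_div]
        refine one_div_le_one_div_of_le (by positivity) ?_
        have hpi3 : (1 : ℝ) ≤ Real.pi := by linarith [Real.pi_gt_three]
        calc 2 * (|b| * P) * ((m : ℝ) - n) = 2 * 1 * |b| * (P * ((m : ℝ) - n)) := by ring
          _ ≤ 2 * Real.pi * |b| * ((f m : ℝ) - f n) := by
            have h0 : 0 ≤ |b| := abs_nonneg b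
            gcongr
      · rw [← Finset.mul_sum]
        have := sum_inv_gt B N D n hB hn
        gcongr
    have hfin : 1 / (2 * (|b| * P)) * (1 + Real.log D) + 1 / (2 * (|b| * P)) * (1 + Real.log D) =
        1 * (1 + Real.log D) / (|b| * P) := by
      field_simp
      ring
    linarith
  have h4 : 0 ≤ A + 1 * (1 + Real.log D) / (|b| * P) := by positivity
  calc ∑ n ∈ B, ∑ m ∈ B, ∫ lam in (0 : ℝ)..A,
        Real.cos (2 * Real.pi * b * ((f n : ℝ) - f m) * lam)
      ≤ ∑ _n ∈ B, (A + 1 * (1 + Real.log D) / (|b| * P)) := Finset.sum_le_sum h3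
    _ = B.card * (A + 1 * (1 + Real.log D) / (|b| * P)) := by
      rw [Finset.sum_const, nsmul_eq_mul]
    _ ≤ D * (A + 1 * (1 + Real.log D) / (|b| * P)) := mul_le_mul_of_nonneg_right hcard h4

end Pool.Agent.Run7.h930.MW
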